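import Mathlib

set_option autoImplicit false

namespace Pool.Agent.H.MP_c5dce0_nt

open PowerSeries Finset

noncomputable def geo (m : ℕ) : ℤ⟦X⟧ := PowerSeries.mk fun j => if m ∣ j then 1 else 0

noncomputable def S (t n : ℕ) : ℤ :=
  coeff n (geo 1 ^ t * ∏ i ∈ range (n + 1), geo (4 ^ i) ^ (3 * t))

lemma geo_mul (m : ℕ) (hm : m ≠ 0) : geo m * (1 - X ^ m) = 1 := by
  ext j
  rw [mul_sub, mul_one, map_sub, coeff_mul_X_pow', coeff_one]
  simp only [geo, coeff_mk]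
  by_cases h : m ≤ j
  · rw [if_pos h, if_neg (show j ≠ 0 by omega)]
    simp [Nat.dvd_sub_iff_left h (dvd_refl m)]
  · rw [if_neg h, sub_zero]
    by_cases h0 : j = 0
    · simp [h0]
    · rw [if_neg h0, if_neg fun h' => h (Nat.le_of_dvd (by omega) h')]

def rho (m : ℕ) : ℤ := if m % 2 = 1 then 2 else if m % 8 = 2 then 1 else if m % 8 = 6 then 3 else 0

lemma rho_mul : (PowerSeries.mk rho) * (1 - X ^ 8) =
    2 * X + X ^ 2 + 2 * X ^ 3 + 2 * X ^ 5 + 3 * X ^ 6 + 2 * X ^ 7 := by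
  have e2 : (2 : ℤ⟦X⟧) = C 2 := (map_ofNat C 2).symm
  have e3 : (3 : ℤ⟦X⟧) = C 3 := (map_ofNat C 3).symm
  ext j
  rw [mul_sub, mul_one, map_sub, coeff_mul_X_pow', e2, e3]
  simp only [coeff_mk, map_add, coeff_C_mul, coeff_X_pow, coeff_X]
  by_cases h : 8 ≤ j
  · have : rho (j - 8) = rho j := by
      unfold rho
      rw [show (j - 8) % 2 = j % 2 by omega, show (j - 8) % 8 = j % 8 by omega]
    rw [if_pos h, this, if_neg (by omega), if_neg (by omega), if_neg (by omega),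
      if_neg (by omega), if_neg (by omega), if_neg (by omega)]
    ring
  · have : j < 8 := by omega
    interval_cases j <;> simp [rho]

noncomputable def R (i : ℕ) : ℤ⟦X⟧ := expand (4 ^ i) (by positivity) (PowerSeries.mk rho)

lemma r4 (i : ℕ) : ∃ k, (geo (4 ^ i) ^ 4 * (1 - X ^ 4 ^ (i + 1))) ^ 4 = 1 + 8 * R i + 32 * k := by
  have h1 := geo_mul (4 ^ i) (by positivity)
  have h2 := geo_mul (4 ^ i * 8) (by positivity)
  have h3 := congrArg (expand (4 ^ i) (by positivity)) rho_mul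
  simp only [map_mul, map_sub, map_add, map_one, map_pow, expand_X, map_ofNat] at h3
  rw [pow_succ 4 i, pow_mul]
  rw [pow_mul] at h2
  change R i * _ = _ at h3
  generalize (X : ℤ⟦X⟧) ^ 4 ^ i = y at *
  generalize geo (4 ^ i) = g at *
  generalize geo (4 ^ i * 8) = g8 at *
  have h4 : g ^ 16 * (1 - y) ^ 16 = 1 := by rw [← mul_pow, h1, one_pow]
  refine ⟨g ^ 16 * g8 * (4 * y ^ 2 - 39 * y ^ 3 + 201 * y ^ 4 - 694 * y ^ 5 + 1766 * y ^ 6 -
    3513 * y ^ 7 + 5698 * y ^ 8 - 7772 * y ^ 9 + 9075 * y ^ 10 - 9098 * y ^ 11 + 7800 * y ^ 12 -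
    5800 * y ^ 13 + 4043 * y ^ 14 - 3046 * y ^ 15 + 2558 * y ^ 16 - 2052 * y ^ 17 +
    1357 * y ^ 18 - 687 * y ^ 19 + 255 * y ^ 20 - 66 * y ^ 21 + 11 * y ^ 22 - y ^ 23), ?_⟩
  linear_combination (1 + 8 * R i - g ^ 16 * (1 - y ^ 4) ^ 4) * h2 +
    g8 * ((1 - y ^ 8) * (1 + 8 * R i)) * h4 - 8 * g8 * g ^ 16 * (1 - y) ^ 16 * h3

noncomputable def Q (N : ℕ) : ℤ⟦X⟧ := ∏ i ∈ range N, geo (4 ^ i) ^ 4 * (1 - X ^ 4 ^ (i + 1))

lemma tele (N : ℕ) : geo 1 * ∏ i ∈ range N, geo (4 ^ i) ^ 3 = geo (4 ^ N) * Q N := by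
  induction N with
  | zero => simp [Q]
  | succ N ih =>
    rw [prod_range_succ, ← mul_assoc, ih, Q, Q, prod_range_succ]
    linear_combination -(geo (4 ^ N) ^ 4 * ∏ i ∈ range N, geo (4 ^ i) ^ 4 * (1 - X ^ 4 ^ (i + 1))) *
      geo_mul (4 ^ (N + 1)) (by positivity)

lemma Q4 (N : ℕ) : ∃ k, Q N ^ 4 = 1 + 8 * ∑ i ∈ range N, R i + 32 * k := by
  induction N with
  | zero => exact ⟨0, by simp [Q]⟩
  | succ N ih =>
    obtain ⟨k, hk⟩ := ih
    obtain ⟨l, hl⟩ := r4 N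
    rw [Q] at hk
    rw [Q, prod_range_succ, mul_pow, hk, hl, sum_range_succ]
    exact ⟨k + l + 2 * (∑ i ∈ range N, R i + 4 * k) * (R N + 4 * l), by ring⟩

lemma pow2 (F K : ℤ⟦X⟧) (h : ∃ k, F ^ 4 = 1 + 8 * K + 32 * k) (s : ℕ) :
    ∃ k, F ^ 2 ^ (s + 2) = 1 + 2 ^ (s + 3) * (K + 4 * k) := by
  induction s with
  | zero =>
    obtain ⟨k, hk⟩ := h
    exact ⟨k, by rw [show 2 ^ (0 + 2) = 4 from rfl, hk]; ring⟩
  | succ s ih =>
    obtain ⟨k, hk⟩ := ih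
    exact ⟨k + 2 ^ s * (K + 4 * k) ^ 2, by rw [pow_succ 2 (s + 2), pow_mul, hk]; ring⟩

lemma powu (F K : ℤ⟦X⟧) (s : ℕ) (h : ∃ k, F = 1 + 2 ^ (s + 3) * (K + 4 * k)) (u : ℕ) :
    ∃ k, F ^ u = 1 + 2 ^ (s + 3) * (u * K + 4 * k) := by
  obtain ⟨l, hl⟩ := h
  induction u with
  | zero => exact ⟨0, by simp⟩
  | succ u ih =>
    obtain ⟨k, hk⟩ := ih
    refine ⟨k + l + 2 ^ (s + 1) * (u * K + 4 * k) * (K + 4 * l), ?_⟩
    rw [pow_succ, hk, hl]
    push_cast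
    ring

lemma S_eq (t n : ℕ) : S t n = coeff n (Q (n + 1) ^ t) := by
  have h1 : geo 1 ^ t * ∏ i ∈ range (n + 1), geo (4 ^ i) ^ (3 * t) =
      geo (4 ^ (n + 1)) ^ t * Q (n + 1) ^ t := by
    rw [← mul_pow, ← tele, mul_pow, ← prod_pow]
    simp only [pow_mul]
  have h2 : X ^ 4 ^ (n + 1) ∣ geo (4 ^ (n + 1)) ^ t - 1 := by
    refine Dvd.dvd.trans ⟨geo (4 ^ (n + 1)), ?_⟩ (sub_one_dvd_pow_sub_one _ t)
    linear_combination geo_mul (4 ^ (n + 1)) (by positivity)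
  have h3 := X_pow_dvd_iff.mp (h2.mul_right (Q (n + 1) ^ t)) n
    ((Nat.lt_succ_self n).trans (Nat.lt_pow_self (by norm_num)))
  rw [sub_mul, one_mul, map_sub, sub_eq_zero] at h3
  rw [S, h1, h3]

lemma coeff_R (n v m : ℕ) (hm : ¬ 4 ∣ m) (hn : n = 4 ^ v * m) :
    coeff n (∑ i ∈ range (n + 1), R i) = rho m := by
  have hv : v < n + 1 := by
    have : 0 < m := Nat.pos_of_ne_zero fun h => hm (by simp [h])
    have := Nat.lt_pow_self (n := v) (show 1 < 4 by norm_num)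
    nlinarith
  rw [map_sum, sum_eq_single_of_mem v (mem_range.mpr hv)]
  · rw [hn, R, coeff_expand_mul, coeff_mk]
  · intro i _ hi
    rcases lt_or_gt_of_ne hi with h | h
    · obtain ⟨j, rfl⟩ := Nat.exists_eq_add_of_lt h
      rw [hn, show 4 ^ (i + j + 1) * m = 4 ^ i * (4 * (4 ^ j * m)) by ring, R, coeff_expand_mul,
        coeff_mk, rho, if_neg (by omega), if_neg (by omega), if_neg (by omega)]
    · obtain ⟨j, rfl⟩ := Nat.exists_eq_add_of_lt h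
      refine coeff_expand_of_not_dvd _ _ _ fun h' => hm ?_
      rw [hn, add_assoc, pow_add] at h'
      exact (dvd_pow_self 4 (by omega)).trans (Nat.dvd_of_mul_dvd_mul_left (by positivity) h')

lemma main (s u n : ℕ) (hu : Odd u) (hn : 1 ≤ n) :
    emultiplicity 2 (S (2 ^ (s + 2) * u) n) = ((s + 3 + padicValNat 2 (2 * n) % 2 : ℕ) : ℕ∞) := by
  have : Fact (Nat.Prime 2) := ⟨Nat.prime_two⟩
  obtain ⟨k, hk⟩ := powu _ _ s (pow2 _ _ (Q4 (n + 1)) s) u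
  obtain ⟨w, m, hm, hnm⟩ := Nat.exists_eq_two_pow_mul_odd (by omega : n ≠ 0)
  have hw : padicValNat 2 (2 * n) = w + 1 := by
    rw [hnm, ← mul_assoc, ← pow_succ', padicValNat.mul (by positivity) hm.pos.ne',
      padicValNat.prime_pow, padicValNat.eq_zero_of_not_dvd hm.not_two_dvd_nat]
  have e : ∀ r : ℤ, coeff n (∑ i ∈ range (n + 1), R i) = r →
      S (2 ^ (s + 2) * u) n = 2 ^ (s + 3) * (u * r + 4 * coeff n k) := by
    intro r hr
    rw [S_eq, pow_mul, hk, show (2 : ℤ⟦X⟧) = C 2 from (map_ofNat C 2).symm,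
      show (4 : ℤ⟦X⟧) = C 4 from (map_ofNat C 4).symm,
      show (u : ℤ⟦X⟧) = C (u : ℤ) from (map_natCast C u).symm, ← map_pow, map_add, coeff_C_mul,
      map_add, coeff_C_mul, coeff_C_mul, hr, coeff_one, if_neg (by omega), zero_add]
  obtain ⟨a, rfl⟩ := hu
  obtain ⟨b, hb⟩ := hm
  rw [hw]
  rcases Nat.even_or_odd' w with ⟨v, rfl | rfl⟩
  · rw [e _ (coeff_R n v m (by omega) (by rw [hnm, pow_mul]; norm_num)), rho, if_pos (by omega),
      show (2 * v + 1) % 2 = 1 by omega]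
    refine emultiplicity_eq_of_dvd_of_not_dvd ⟨2 * a + 1 + 2 * coeff n k, by push_cast; ring⟩ ?_
    rw [add_assoc, pow_add, mul_dvd_mul_iff_left (by positivity)]
    push_cast
    omega
  · rw [e _ (coeff_R n v (2 * m) (by omega) (by rw [hnm, pow_succ, pow_mul]; norm_num [mul_assoc])),
      show (2 * v + 1 + 1) % 2 = 0 by omega]
    refine emultiplicity_eq_of_dvd_of_not_dvd (dvd_mul_right _ _) ?_
    rw [add_zero, pow_succ, mul_dvd_mul_iff_left (by positivity), rho, if_neg (by omega)]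
    push_cast
    split_ifs <;> omega

lemma S_zero (t : ℕ) : S t 0 = 1 := by
  simp [S, geo, ← coeff_zero_eq_constantCoeff_apply (PowerSeries.mk _)]

end Pool.Agent.H.MP_c5dce0_nt
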